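import Pool.Agent.MP_cce4c9_lc.H7.Spec

/-! Riemann's inequality and the explicit bound for the genus. -/

set_option autoImplicit false

open WithZero Finsupp Module
open scoped IntermediateField

namespace Pool.Agent.MP_cce4c9_lc.H82

open Pool.Agent.MP_cce4c9_lc.H87 Pool.Agent.MP_cce4c9_lc.H7

variable {k K : Type} [Field k] [Field K] [Algebra k K]

theorem transc [IsAlgClosed k] {s : K} (hs : s ∉ Set.range (algebraMap k K)) :
    Transcendental k s := fun h =>
  hs (minpoly.mem_range_of_degree_eq_one k s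
    (IsAlgClosed.degree_eq_one_of_irreducible k (minpoly.irreducible h.isIntegral)))

theorem not_const {s : K} (hs : Transcendental k s) : s ∉ Set.range (algebraMap k K) := by
  rintro ⟨c, rfl⟩
  exact hs (isAlgebraic_algebraMap c)

open IntermediateField in
theorem fd (hK : IsFF k K) {y : K} (hy : Transcendental k y) : FiniteDimensional k⟮y⟯ K := by
  obtain ⟨x, hx, hfd⟩ := hK
  have halg : IsAlgebraic k⟮y⟯ x :=
    isAlgebraic_adjoin_iff.mpr (.adjoin_singleton hx hy
      (isAlgebraic_adjoin_iff.mp (Algebra.IsAlgebraic.isAlgebraic y)))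
  let Fyx := IntermediateField.restrictScalars k k⟮y⟯⟮x⟯
  let Fxy := IntermediateField.restrictScalars k k⟮x⟯⟮y⟯
  let _ : Algebra k⟮y⟯ Fyx := k⟮y⟯⟮x⟯.algebra
  let _ : Module k⟮y⟯ Fyx := Algebra.toModule
  let _ : SMul k⟮y⟯ Fyx := Algebra.toSMul
  let _ : Algebra k⟮x⟯ Fxy := k⟮x⟯⟮y⟯.algebra
  let _ : Module k⟮x⟯ Fxy := Algebra.toModule
  let _ : SMul k⟮x⟯ Fxy := Algebra.toSMul
  have : FiniteDimensional k⟮y⟯ Fyx :=
    adjoin.finiteDimensional (isAlgebraic_iff_isIntegral.mp halg)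
  have : FiniteDimensional Fyx K := by
    unfold Fyx
    rw [adjoin_simple_comm]
    have : IsScalarTower k⟮x⟯ Fxy K := isScalarTower_mid' k⟮x⟯⟮y⟯
    exact .right k⟮x⟯ Fxy K
  have : IsScalarTower k⟮y⟯ Fyx K := isScalarTower_mid' k⟮y⟯⟮x⟯
  exact .trans k⟮y⟯ Fyx K

theorem inv_not_const {s : K} (hs : s ∉ Set.range (algebraMap k K)) :
    s⁻¹ ∉ Set.range (algebraMap k K) := by
  rintro ⟨c, hc⟩
  exact hs ⟨c⁻¹, by rw [map_inv₀, hc, inv_inv]⟩

theorem adjoin_inv (s : K) : k⟮s⁻¹⟯ = k⟮s⟯ := by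
  apply le_antisymm <;> rw [IntermediateField.adjoin_simple_le_iff]
  · exact inv_mem (IntermediateField.mem_adjoin_simple_self k s)
  · simpa using inv_mem (IntermediateField.mem_adjoin_simple_self k s⁻¹)

theorem LL_mono {D D' : Dv k K} (h : D ≤ D') : LL D ≤ LL D' := fun _ hx v =>
  (hx v).trans (exp_le_exp.2 (h v))

theorem degree_nonneg {E : Dv k K} (h : 0 ≤ E) : 0 ≤ E.degree :=
  Finset.sum_nonneg fun v _ => h v

theorem mul_mem_LL {D E : Dv k K} {a b : K} (ha : a ∈ LL D) (hb : b ∈ LL E) :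
    a * b ∈ LL (D + E) := fun v => by
  rw [map_mul, Finsupp.add_apply, exp_add]
  exact mul_le_mul' (ha v) (hb v)

theorem pow_mem_LL {B : Dv k K} (hB : 0 ≤ B) {s : K} (hs : s ∈ LL B) {j r : ℕ} (hj : j ≤ r) :
    s ^ j ∈ LL ((r : ℤ) • B) := fun v => by
  rw [map_pow]
  refine (pow_le_pow_left' (hs v) j).trans ?_
  rw [← exp_nsmul, exp_le_exp, Finsupp.smul_apply, smul_eq_mul, nsmul_eq_mul]
  exact mul_le_mul_of_nonneg_right (by exact_mod_cast hj) (hB v)

section

variable [IsAlgClosed k] (hL : StmtLL) (hD : StmtDEG) (hK : IsFF k K)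

include hD hK in
theorem fins (h : K) : (Function.support fun v : Place k K => v.ord h).Finite := by
  have pos : ∀ s : K, s ∉ Set.range (algebraMap k K) →
      (Function.support fun v : Place k K => v.ord s).Finite := fun s hs => by
    by_contra hc
    have h1 := (hD k K hK).1 s hs
    have h2 := fd hK (transc hs)
    have h3 : 0 < finrank k⟮s⟯ K := finrank_pos
    rw [dv, dif_neg hc, sup_idem, map_zero] at h1
    omega
  by_cases hh : h ∈ Set.range (algebraMap k K)
  · obtain ⟨c, rfl⟩ := hh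
    simp
  · exact pos h hh

include hD hK in
theorem dv_ap (h : K) (v : Place k K) : dv k h v = v.ord h := dv_apply (fins hD hK h) v

include hD hK in
/-- `h` lies in the space of its pole divisor -/
theorem mem_pole (h : K) : h ∈ LL (dv k h⁻¹ ⊔ 0) := fun v => by
  by_cases h0 : h = 0
  · simp [h0]
  · rw [v.val_le_exp (v.val_ne h0), sup_apply, dv_ap hD hK, v.ord_inv]
    have := le_sup_left (a := -v.ord h) (b := (0 : Dv k K) v)
    omega

include hD hK in
theorem degree_pole {s : K} (hs : s ∉ Set.range (algebraMap k K)) :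
    (dv k s⁻¹ ⊔ 0).degree = (finrank k⟮s⟯ K : ℤ) := by
  rw [(hD k K hK).1 _ (inv_not_const hs)]
  exact congrArg (fun E : IntermediateField k K => (finrank E K : ℤ)) (adjoin_inv s)

include hL hK in
theorem step_nat (n : ℕ) : ∀ D E : Dv k K, 0 ≤ E → E.degree = n →
    (finrank k (LL (D + E)) : ℤ) ≤ finrank k (LL D) + n := by
  induction n with
  | zero =>
    intro D E hE h0
    have : E = 0 := by
      ext v
      by_cases hv : v ∈ E.support
      · exact (Finset.sum_eq_zero_iff_of_nonneg fun v _ => hE v).1 h0 v hv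
      · exact notMem_support_iff.1 hv
    rw [this, add_zero]
    simp
  | succ n ih =>
    intro D E hE h0
    have hne : E ≠ 0 := fun e => by
      rw [e, map_zero] at h0
      omega
    obtain ⟨v, hv⟩ := support_nonempty_iff.2 hne
    have hv' : 0 < E v := lt_of_le_of_ne (hE v) (mem_support_iff.1 hv).symm
    have h1 := ih D (E - single v 1) (fun w => by
      classical
      have := hE w
      simp only [coe_zero, Pi.zero_apply, coe_sub, Pi.sub_apply, single_apply] at this ⊢
      split_ifs with e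
      · subst e; omega
      · omega) (by rw [map_sub, degree_single, h0]; push_cast; ring)
    have h2 := (hL k K hK).2.1 (D + (E - single v 1)) v
    rw [add_assoc, sub_add_cancel] at h2
    push_cast
    omega

include hL hK in
/-- `deg D - dim LL D` is monotone -/
theorem step {D D' : Dv k K} (h : D ≤ D') :
    (finrank k (LL D') : ℤ) + D.degree ≤ finrank k (LL D) + D'.degree := by
  have h0 : 0 ≤ D' - D := sub_nonneg.2 h
  obtain ⟨n, hn⟩ := Int.eq_ofNat_of_zero_le (degree_nonneg h0)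
  have h1 := step_nat hL hK n D (D' - D) h0 hn
  rw [add_sub_cancel] at h1
  rw [map_sub] at hn
  omega

include hL hD hK in
theorem finrank_add_dv (D : Dv k K) {h : K} (h0 : h ≠ 0) :
    finrank k (LL (D + dv k h)) ≤ finrank k (LL D) := by
  have := (hL k K hK).1 D
  refine LinearMap.finrank_le_finrank_of_injective
    (f := (LinearMap.mulRight k h).restrict (p := LL (D + dv k h)) (q := LL D) fun x hx v => ?_)
    fun x y hxy => ?_
  · have h1 := hx v
    rw [Finsupp.add_apply, dv_ap hD hK] at h1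
    rw [LinearMap.mulRight_apply, map_mul, v.val_eq (v.val_ne h0)]
    refine (mul_le_mul_left h1 _).trans ?_
    rw [← exp_add, add_neg_cancel_right]
  · exact Subtype.ext (mul_right_cancel₀ h0 (congrArg Subtype.val hxy))

include hL hD hK in
/-- the basic count -/
theorem count {s : K} (hs : s ∉ Set.range (algebraMap k K)) {n : ℕ} {C : Dv k K} {u : Fin n → K}
    (hu : LinearIndependent k⟮s⟯ u) (hC : ∀ i, u i ∈ LL C) (r : ℕ) :
    (r + 1) * n ≤ finrank k (LL ((r : ℤ) • (dv k s⁻¹ ⊔ 0) + C)) := by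
  have := (hL k K hK).1 ((r : ℤ) • (dv k s⁻¹ ⊔ 0) + C)
  have ht : Transcendental k (IntermediateField.AdjoinSimple.gen k s) := fun h =>
    transc hs (h.algebraMap (A := K))
  have h1 : LinearIndependent k fun j : ℕ => IntermediateField.AdjoinSimple.gen k s ^ j := by
    have := (Polynomial.basisMonomials k).linearIndependent.map'
      (Polynomial.aeval (IntermediateField.AdjoinSimple.gen k s)).toLinearMap
      (LinearMap.ker_eq_bot.2 (transcendental_iff_injective.1 ht))
    have e : (fun j : ℕ => IntermediateField.AdjoinSimple.gen k s ^ j) =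
        ⇑(Polynomial.aeval (IntermediateField.AdjoinSimple.gen k s)).toLinearMap ∘
          ⇑(Polynomial.basisMonomials k) := by
      funext j
      simp
    rw [e]
    exact this
  have h2 := linearIndependent_smul (h1.comp (fun j : Fin (r + 1) => (j : ℕ)) Fin.val_injective) hu
  have h3 : ∀ p : Fin (r + 1) × Fin n,
      s ^ (p.1 : ℕ) * u p.2 ∈ LL ((r : ℤ) • (dv k s⁻¹ ⊔ 0) + C) := fun p =>
    mul_mem_LL (pow_mem_LL le_sup_right (mem_pole hD hK s) (Nat.lt_succ_iff.1 p.1.2)) (hC p.2)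
  have h4 : LinearIndependent k fun p : Fin (r + 1) × Fin n =>
      (⟨_, h3 p⟩ : LL ((r : ℤ) • (dv k s⁻¹ ⊔ 0) + C)) :=
    LinearIndependent.of_comp (Submodule.subtype _) h2
  simpa using h4.fintype_card_le_finrank

include hL hD hK in
theorem riemann : ∃ γ : ℕ, ∀ D : Dv k K, D.degree + 1 - γ ≤ (finrank k (LL D) : ℤ) := by
  obtain ⟨s, hs', hfd⟩ := id hK
  have hs := not_const hs'
  have hn : 0 < finrank k⟮s⟯ K := finrank_pos
  let u := Module.finBasis k⟮s⟯ K
  let C : Dv k K := ∑ i, (dv k (u i)⁻¹ ⊔ 0)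
  have hC0 : 0 ≤ C := Finset.sum_nonneg fun _ _ => le_sup_right
  have hC : ∀ i, u i ∈ LL C := fun i =>
    LL_mono (Finset.single_le_sum (f := fun i => dv k (u i)⁻¹ ⊔ 0) (fun _ _ => le_sup_right)
      (Finset.mem_univ i)) (mem_pole hD hK (u i))
  have hB := degree_pole hD hK hs
  set B := dv k s⁻¹ ⊔ 0 with hBdef
  have key : ∀ r : ℕ, ((r : ℤ) • B).degree ≤ finrank k (LL ((r : ℤ) • B)) + C.degree - 1 :=
    fun r => by
      have h1 := count hL hD hK hs u.linearIndependent hC r
      have h2 := step hL hK (D := (r : ℤ) • B) (D' := (r : ℤ) • B + C) (le_add_of_nonneg_right hC0)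
      rw [map_add] at h2
      rw [map_zsmul, hB, smul_eq_mul]
      have h3 : ((r : ℤ) + 1) * finrank k⟮s⟯ K ≤ finrank k (LL ((r : ℤ) • B + C)) := by
        exact_mod_cast h1
      have h4 : (1 : ℤ) ≤ finrank k⟮s⟯ K := by exact_mod_cast hn
      linarith
  obtain ⟨γ, hγ⟩ := Int.eq_ofNat_of_zero_le (degree_nonneg hC0)
  refine ⟨γ, fun D => ?_⟩
  obtain ⟨d, hd⟩ := Int.eq_ofNat_of_zero_le (degree_nonneg (le_sup_right : 0 ≤ D ⊔ 0))
  have h1 := step hL hK (le_sup_left : D ≤ D ⊔ 0)
  have h2 := key (γ + d)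
  have h3 := step hL hK (D := ((γ + d : ℕ) : ℤ) • B - D ⊔ 0) (D' := ((γ + d : ℕ) : ℤ) • B)
    (sub_le_self _ le_sup_right)
  have h4 : ((γ + d : ℕ) : ℤ) ≤ (((γ + d : ℕ) : ℤ) • B).degree := by
    rw [map_zsmul, hB, smul_eq_mul]
    exact le_mul_of_one_le_right (by positivity) (by exact_mod_cast hn)
  rw [map_sub] at h3
  have h5 : 0 < finrank k (LL (((γ + d : ℕ) : ℤ) • B - D ⊔ 0)) := by
    push_cast at h2 h3 h4 ⊢
    omega
  have := (hL k K hK).1 (((γ + d : ℕ) : ℤ) • B - D ⊔ 0)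
  obtain ⟨⟨h, hh⟩, h0⟩ := finrank_pos_iff_exists_ne_zero.1 h5
  have h0' : h ≠ 0 := fun e => h0 (Subtype.ext e)
  have h6 := step hL hK (D := D ⊔ 0 + dv k h⁻¹) (D' := ((γ + d : ℕ) : ℤ) • B) fun v => by
    have := (v.val_le_exp (v.val_ne h0') _).1 (hh v)
    rw [Finsupp.add_apply, dv_ap hD hK, v.ord_inv]
    rw [Finsupp.sub_apply] at this
    omega
  have h7 := finrank_add_dv hL hD hK (D ⊔ 0) (inv_ne_zero h0')
  rw [map_add, (hD k K hK).2] at h6
  omega

end

theorem ri (hL : StmtLL) (hD : StmtDEG) : StmtRI := by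
  intro k K _ _ _ _ hK
  refine ⟨riemann hL hD hK, fun g hg s hs C u hu hC => ?_⟩
  have hfd := fd hK (transc hs)
  have hn : (1 : ℤ) ≤ finrank k⟮s⟯ K := by exact_mod_cast (finrank_pos : 0 < finrank k⟮s⟯ K)
  let r : ℕ := (2 * (g : ℤ) - C.degree).toNat
  have hr : 2 * (g : ℤ) - C.degree ≤ r := Int.self_le_toNat _
  have h1 := count hL hD hK hs hu hC r
  have hdeg : ((r : ℤ) • (dv k s⁻¹ ⊔ 0) + C).degree = r * finrank k⟮s⟯ K + C.degree := by
    rw [map_add, map_zsmul, degree_pole hD hK hs, smul_eq_mul]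
  have h2 : (r : ℤ) ≤ r * finrank k⟮s⟯ K := le_mul_of_one_le_right (by positivity) hn
  have h3 := hg.eq _ (by rw [hdeg]; linarith)
  have h4 : ((r : ℤ) + 1) * finrank k⟮s⟯ K ≤
      finrank k (LL ((r : ℤ) • (dv k s⁻¹ ⊔ 0) + C)) := by exact_mod_cast h1
  rw [h3, hdeg] at h4
  linarith

end Pool.Agent.MP_cce4c9_lc.H82
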