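import Pool.Agent.MP_cce4c9_lc.H87.SpecR

/-!
Isolated points survive generic combination and perturbation of the equations.
-/

set_option autoImplicit false

open Finset MvPolynomial

namespace Pool.Agent.MP_cce4c9_lc.H82

open Pool.Agent.MP_cce4c9_lc.H87

/-- The ideal of a point has large height. -/
lemma le_height_ker {A : Type} [CommRing A] [IsDomain A] {n : ℕ} (c : Fin n → A) :
    (n : ℕ∞) ≤ (RingHom.ker (eval c)).height := by
  obtain ⟨ψ, hψ⟩ : ∃ ψ : ℕ → MvPolynomial (Fin n) A →+* MvPolynomial (Fin n) A, ∀ m,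
      ψ m = eval₂Hom C fun j : Fin n => if j.1 < m then C (c j) else X j := ⟨_, fun _ => rfl⟩
  have pr : ∀ m, (RingHom.ker (ψ m)).IsPrime := fun m => RingHom.ker_isPrime _
  have key : ∀ m, m ≤ n → (m : ℕ∞) ≤ (RingHom.ker (ψ m)).height := by
    intro m
    induction m with
    | zero => exact fun _ => by simp
    | succ m ih =>
      intro hm
      have := pr m
      have := pr (m + 1)
      have e : (ψ (m + 1)).comp (ψ m) = ψ (m + 1) := by
        refine ringHom_ext (fun r => by simp [hψ]) fun j => ?_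
        by_cases h : j.1 < m
        · simp [hψ, h, h.le]
        · simp [hψ, h]
      have lt : RingHom.ker (ψ m) < RingHom.ker (ψ (m + 1)) := by
        refine lt_of_le_of_ne (fun r hr => ?_) fun h => ?_
        · rw [RingHom.mem_ker] at hr ⊢
          rw [← e, RingHom.comp_apply, hr, map_zero]
        · have h1 : X ⟨m, hm⟩ - C (c ⟨m, hm⟩) ∈ RingHom.ker (ψ (m + 1)) := by
            simp [RingHom.mem_ker, hψ]
          rw [← h, RingHom.mem_ker] at h1
          have h2 : (X ⟨m, hm⟩ : MvPolynomial (Fin n) A) - C (c ⟨m, hm⟩) = 0 := by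
            simpa [hψ] using h1
          have h3 := congrArg (coeff (Finsupp.single (⟨m, hm⟩ : Fin n) 1)) h2
          rw [coeff_sub, coeff_X, coeff_C, if_neg (Finsupp.single_ne_zero.2 one_ne_zero).symm] at h3
          simp at h3
      refine le_trans ?_ (Ideal.height_add_one_le_of_lt_of_isPrime lt)
      push_cast
      gcongr
      exact ih (by omega)
  refine (key n le_rfl).trans (Ideal.height_mono fun r hr => ?_)
  have e : (eval c).comp (ψ n) = eval c :=
    ringHom_ext (fun r => by simp [hψ]) fun j => by simp [hψ]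
  rw [RingHom.mem_ker] at hr ⊢
  rw [← e, RingHom.comp_apply, hr, map_zero]

variable {k : Type} [Field k] {v : ℕ} {S : Type} [CommRing S] [IsDomain S] [Algebra k S]

lemma aeval_pt (a : Fin v → k) (f : MvPolynomial (Fin v) k) :
    aeval (fun j => (C (a j) : MvPolynomial (Fin v) k)) f = C (eval a f) :=
  aeval_algebraMap_apply (MvPolynomial (Fin v) k) a f

/-- A generic point of the solution set that specializes to an isolated point is that point. -/
lemma iso_pt [IsAlgClosed k] {s : ℕ} {fs : ℕ → MvPolynomial (Fin v) k} {a : Fin v → k}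
    (h : Iso s fs a) (ξ : Fin v → S) (φ : S →ₐ[k] MvPolynomial (Fin v) k)
    (hφ : ∀ j, φ (ξ j) = C (a j)) (h0 : ∀ l < s, aeval ξ (fs l) = 0) (j : Fin v) :
    ξ j = algebraMap k S (a j) := by
  obtain ⟨-, g, hg, Z, hZ⟩ := h
  have pr : (RingHom.ker (aeval ξ : MvPolynomial (Fin v) k →ₐ[k] S)).IsPrime :=
    RingHom.ker_isPrime _
  have m : g * ∏ z ∈ Z, (X j - C z) ∈ RingHom.ker (aeval ξ : MvPolynomial (Fin v) k →ₐ[k] S) := by
    rw [← IsPrime.vanishingIdeal_zeroLocus (K := k) (RingHom.ker _), mem_vanishingIdeal_iff]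
    intro b hb
    rw [map_mul, map_prod]
    by_cases e : eval b g = 0
    · rw [show aeval b g = 0 from e, zero_mul]
    · have := hZ b (fun l hl => hb _ (h0 l hl)) e j
      rw [prod_eq_zero this (by simp), mul_zero]
  rw [RingHom.mem_ker, map_mul, map_prod, mul_eq_zero, prod_eq_zero_iff] at m
  rcases m with m | ⟨z, -, m⟩
  · have := congrArg φ m
    rw [map_zero, ← AlgHom.comp_apply, comp_aeval, funext hφ, aeval_pt, C_eq_zero] at this
    exact absurd this hg
  · have e : ξ j = algebraMap k S z := by simpa [sub_eq_zero] using m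
    have := hφ j
    rw [e, AlgHom.commutes, algebraMap_eq, C_inj] at this
    rw [e, this]

/-- Exchange of transcendence bases. -/
lemma exch {υ ξ : Fin v → S} (h : AlgebraicIndependent k υ)
    (h' : ∀ j, IsAlgebraic (Algebra.adjoin k (Set.range ξ)) (υ j)) (j : Fin v) :
    IsAlgebraic (Algebra.adjoin k (Set.range υ)) (ξ j) := by
  have hI : (AlgebraicIndependent.matroid k S).Indep (Set.range υ) := h.to_subtype_range
  have c : ∀ x : Fin v → S, (Set.range x).encard ≤ (Set.univ : Set (Fin v)).encard := fun x => by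
    rw [← Set.image_univ]
    exact Set.encard_image_le _ _
  have b := hI.isBasis_of_eRk_ge (X := Set.range υ ∪ Set.range ξ) (Set.finite_range _)
    Set.subset_union_left (by
      rw [hI.eRk_eq_encard, ← Set.image_univ (f := υ), h.injective.injOn.encard_image,
        Set.image_univ]
      refine le_trans ?_ (((AlgebraicIndependent.matroid k S).eRk_le_encard _).trans (c ξ))
      rw [← (AlgebraicIndependent.matroid k S).eRk_closure_eq (Set.range ξ)]
      refine (AlgebraicIndependent.matroid k S).eRk_mono (Set.union_subset ?_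
        ((AlgebraicIndependent.matroid k S).subset_closure _ (Set.subset_univ _)))
      rintro _ ⟨i, rfl⟩
      rw [AlgebraicIndependent.matroid_closure_eq]
      exact h' i) (Set.subset_univ _)
  exact (AlgebraicIndependent.matroid_isBasis_iff.1 b).2.2 _ (Or.inr ⟨j, rfl⟩)

/-- The same for the generic combinations. -/
lemma gen_pt [IsAlgClosed k] {s : ℕ} {fs : ℕ → MvPolynomial (Fin v) k} {a : Fin v → k}
    (h : Iso s fs a) (ξ υ : Fin v → S) (φ : S →ₐ[k] MvPolynomial (Fin v) k)
    (hφ : ∀ j, φ (ξ j) = C (a j)) (hυ : ∀ j, φ (υ j) = X j)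
    (h0 : ∀ j, ∑ l ∈ range s, υ j ^ l * aeval ξ (fs l) = 0) (j : Fin v) :
    ξ j = algebraMap k S (a j) := by
  by_cases c : ∀ l < s, aeval ξ (fs l) = 0
  · exact iso_pt h ξ φ hφ c j
  push Not at c
  obtain ⟨l₀, hl, c⟩ := c
  have mem : ∀ l, aeval ξ (fs l) ∈ Algebra.adjoin k (Set.range ξ) := fun l => by
    rw [Algebra.adjoin_range_eq_range_aeval]
    exact ⟨_, rfl⟩
  have ind : AlgebraicIndependent k υ := AlgebraicIndependent.of_comp φ (by
    rw [show φ ∘ υ = X from funext hυ]
    exact algebraicIndependent_X _ _)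
  have alg := exch ind (ξ := ξ) (fun i => ⟨∑ l ∈ range s, Polynomial.monomial l ⟨_, mem l⟩,
    fun e => c (by
      have := congrArg (Polynomial.coeff · l₀) e
      simp only [Polynomial.finsetSum_coeff, Polynomial.coeff_monomial, sum_ite_eq', mem_range,
        hl, if_true, Polynomial.coeff_zero] at this
      exact congrArg Subtype.val this), by
      rw [← h0 i, map_sum]
      exact sum_congr rfl fun l _ => by rw [Polynomial.aeval_monomial, mul_comm]; rfl⟩) j
  by_contra ne
  have alg' : IsAlgebraic (Algebra.adjoin k (Set.range υ)) (ξ j - algebraMap k S (a j)) :=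
    alg.sub (isAlgebraic_algebraMap (algebraMap k (Algebra.adjoin k (Set.range υ)) (a j)))
  refine Ideal.comap_ne_bot_of_algebraic_mem (I := RingHom.ker φ) (sub_ne_zero.2 ne)
    (by simp [RingHom.mem_ker, hφ]) alg' (eq_bot_iff.2 ?_)
  rintro ⟨x, hx⟩ hx'
  rw [Algebra.adjoin_range_eq_range_aeval] at hx
  obtain ⟨p, rfl⟩ := hx
  have : φ (aeval υ p) = 0 := hx'
  rw [← AlgHom.comp_apply, comp_aeval, funext hυ, aeval_X_left_apply] at this
  exact Subtype.ext (by simp [this])

omit [IsDomain S] in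
/-- The leading coefficient vanishes in the limit. -/
lemma top {L : Type} [Field L] [Algebra k L] (ι : S →ₐ[k] L) (hι : Function.Injective ι)
    (φ : S →ₐ[k] MvPolynomial (Fin v) k) (t e : S) (υ : Fin v → S) (α : k) (ht : φ t = C α)
    (he : φ e = 0) (hυ : ∀ j, φ (υ j) = X j) (e0 : e ≠ 0) (Δ : MvPolynomial (Fin (v + 2)) k)
    (hΔ : Δ ≠ 0)
    (h : aeval (Matrix.vecCons (ι t) (Matrix.vecCons (ι e)⁻¹ fun j => ι (υ j))) Δ = 0) :
    ∃ β : Fin (v + 1) →₀ ℕ, (∃ e, Δ.coeff (Finsupp.cons e β) ≠ 0) ∧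
      ∀ n, Δ.totalDegree < n → ∑ e ∈ range n, Δ.coeff (Finsupp.cons e β) * α ^ e = 0 := by
  obtain ⟨γ₀, m0, mx⟩ := exists_max_image Δ.support (fun γ => γ 1) (support_nonempty.2 hΔ)
  have e1 : ι e ≠ 0 := fun c => e0 (hι (by rw [c, map_zero]))
  have w : ∑ γ ∈ Δ.support, algebraMap k S (Δ.coeff γ) *
      (t ^ γ 0 * (e ^ (γ₀ 1 - γ 1) * ∏ j, υ j ^ γ j.succ.succ)) = 0 := by
    refine hι ?_
    rw [map_zero, ← mul_zero (ι e ^ γ₀ 1), ← h, aeval_def, eval₂_eq', mul_sum, map_sum]
    refine sum_congr rfl fun γ hγ => ?_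
    rw [Fin.prod_univ_succ, Fin.prod_univ_succ]
    simp only [map_mul, map_pow, map_prod, AlgHom.commutes, Matrix.cons_val_zero,
      Matrix.cons_val_succ, Fin.succ_zero_eq_one, Matrix.cons_val_one]
    rw [pow_sub₀ _ e1 (mx γ hγ), inv_pow]
    ring
  have w' := congrArg (fun x => coeff γ₀.tail.tail (φ x)) w
  simp only [map_sum, map_zero, coeff_sum, coeff_zero] at w'
  have w2 : ∑ γ ∈ Δ.support with γ.tail = γ₀.tail, Δ.coeff γ * α ^ γ 0 = 0 := by
    rw [sum_filter]
    refine (sum_congr rfl fun γ hγ => ?_).trans w'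
    have p : ∏ j : Fin v, (X j : MvPolynomial (Fin v) k) ^ γ j.succ.succ =
        monomial γ.tail.tail 1 := by
      rw [monomial_eq, C_1, one_mul, Finsupp.prod_fintype _ _ fun _ => pow_zero _]
      rfl
    simp only [map_mul, map_pow, map_prod, AlgHom.commutes, ht, he, hυ, algebraMap_eq, p]
    rw [← C_pow, coeff_C_mul, coeff_C_mul]
    by_cases c : γ.tail = γ₀.tail
    · have : γ 1 = γ₀ 1 := DFunLike.congr_fun c 0
      simp [c, this]
    · rw [if_neg c]
      by_cases c1 : γ 1 = γ₀ 1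
      · have : γ.tail.tail ≠ γ₀.tail.tail := fun c2 => c (by
          rw [← Finsupp.cons_tail γ.tail, ← Finsupp.cons_tail γ₀.tail, c2]
          exact congrArg (Finsupp.cons · _) c1)
        simp [c1, coeff_monomial, this]
      · have := mx γ hγ
        rw [zero_pow (by omega)]
        simp
  refine ⟨γ₀.tail, ⟨γ₀ 0, by rw [Finsupp.cons_tail]; exact mem_support_iff.1 m0⟩, fun n hn => ?_⟩
  have inj : Set.InjOn (fun e => Finsupp.cons e γ₀.tail) (range n : Finset ℕ) :=
    fun x _ y _ c => by simpa using DFunLike.congr_fun c 0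
  rw [← w2, sum_subset (s₂ := (range n).image fun e => Finsupp.cons e γ₀.tail), sum_image inj]
  · simp
  · intro γ hγ
    obtain ⟨g1, g2⟩ := mem_filter.1 hγ
    refine mem_image.2 ⟨γ 0, mem_range.2 ?_, by rw [← g2, Finsupp.cons_tail]⟩
    exact ((monomial_le_degreeOf 0 g1).trans (degreeOf_le_totalDegree _ _)).trans_lt hn
  · intro γ g1 g2
    obtain ⟨x, -, rfl⟩ := mem_image.1 g1
    rw [mem_filter, Finsupp.tail_cons, and_iff_left rfl, notMem_support_iff] at g2
    rw [g2, zero_mul]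

/-- Passage to the field of fractions. -/
lemma lim {s δ : ℕ} {fs : ℕ → MvPolynomial (Fin v) k} {i : Fin v} {α : k}
    {Δ : MvPolynomial (Fin (v + 2)) k}
    (H : ∀ (L : Type) [Field L] [Algebra k L] (ξ : Fin v → L) (η : L) (u : Fin v → L),
      (∀ j, ξ j ^ (δ + 1) + η * ∑ l ∈ range s, u j ^ l * aeval ξ (fs l) = 0) →
      aeval (Matrix.vecCons (ξ i) (Matrix.vecCons η u)) Δ = 0)
    (φ : S →ₐ[k] MvPolynomial (Fin v) k) (ξ υ : Fin v → S) (e : S) (ht : φ (ξ i) = C α)
    (he : φ e = 0) (hυ : ∀ j, φ (υ j) = X j) (e0 : e ≠ 0) (hΔ : Δ ≠ 0)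
    (rel : ∀ j, e * ξ j ^ (δ + 1) + ∑ l ∈ range s, υ j ^ l * aeval ξ (fs l) = 0) :
    ∃ β : Fin (v + 1) →₀ ℕ, (∃ e, Δ.coeff (Finsupp.cons e β) ≠ 0) ∧
      ∀ n, Δ.totalDegree < n → ∑ e ∈ range n, Δ.coeff (Finsupp.cons e β) * α ^ e = 0 := by
  obtain ⟨ι, hι⟩ : ∃ ι : S →ₐ[k] FractionRing S, Function.Injective ι :=
    ⟨IsScalarTower.toAlgHom k S (FractionRing S), IsFractionRing.injective S (FractionRing S)⟩
  refine top ι hι φ (ξ i) e υ α ht he hυ e0 Δ hΔ (H _ (fun j => ι (ξ j)) _ _ fun j => ?_)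
  have e1 : ι e ≠ 0 := fun c => e0 (hι (by rw [c, map_zero]))
  have := congrArg ι (rel j)
  rw [map_zero, map_add, map_mul, map_pow, map_sum] at this
  refine mul_left_cancel₀ e1 ?_
  rw [mul_zero, ← this, mul_add, mul_inv_cancel_left₀ e1]
  refine congrArg _ (sum_congr rfl fun l _ => ?_)
  rw [map_mul, map_pow, ← comp_aeval, AlgHom.comp_apply]

theorem enga : StmtENGA := by
  intro k _ _ v s δ fs a i Δ hI hΔ H
  obtain ⟨c, hc⟩ : ∃ c : Fin (v + 1) → MvPolynomial (Fin v) k,
      c = Fin.cons 0 fun j => C (a j) := ⟨_, rfl⟩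
  obtain ⟨ev, hev⟩ : ∃ ev : MvPolynomial (Fin (v + 1)) (MvPolynomial (Fin v) k) →ₐ[k]
      MvPolynomial (Fin v) k, ∀ r, ev r = eval c r :=
    ⟨(aeval c).restrictScalars k, fun r => by simp⟩
  obtain ⟨G, hG⟩ : ∃ G : Fin v → MvPolynomial (Fin (v + 1)) (MvPolynomial (Fin v) k), ∀ j,
      G j = X 0 * X j.succ ^ (δ + 1) +
        ∑ l ∈ range s, C (X j) ^ l * aeval (fun j : Fin v => X j.succ) (fs l) :=
    ⟨_, fun _ => rfl⟩
  have v0 : ev (X 0) = 0 := by simp [hev, hc]
  have v1 : ∀ j : Fin v, ev (X j.succ) = C (a j) := fun j => by simp [hev, hc]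
  have v2 : ∀ x, ev (C x) = x := fun x => by simp [hev]
  have hq : (RingHom.ker (eval c)).IsPrime := RingHom.ker_isPrime _
  have le : Ideal.span (Set.range G) ≤ RingHom.ker (eval c) := by
    rw [Ideal.span_le]
    rintro _ ⟨j, rfl⟩
    change eval c (G j) = 0
    rw [← hev, hG, map_add, map_mul, v0, zero_mul, zero_add, map_sum]
    refine sum_eq_zero fun l hl => ?_
    rw [map_mul, ← AlgHom.comp_apply, comp_aeval, funext v1, aeval_pt,
      hI.1 l (mem_range.1 hl), map_zero, mul_zero]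
  obtain ⟨p, hp, pq⟩ := Ideal.exists_minimalPrimes_le le
  have pp : p.IsPrime := hp.1.1
  have ht : p.height ≤ v := (Ideal.height_le_card_of_mem_minimalPrimes_span
    (Set.finite_range G) hp).trans (by
      rw [← Set.image_univ]
      exact_mod_cast (Set.ncard_image_le Set.finite_univ).trans (by simp))
  obtain ⟨φ, hφ⟩ : ∃ φ : (MvPolynomial (Fin (v + 1)) (MvPolynomial (Fin v) k) ⧸ p) →ₐ[k]
      MvPolynomial (Fin v) k, ∀ r, φ (Ideal.Quotient.mkₐ k p r) = ev r :=
    ⟨Ideal.Quotient.liftₐ p ev fun r hr => by rw [hev]; exact pq hr, fun r => rfl⟩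
  have rel : ∀ j, Ideal.Quotient.mkₐ k p (X 0) * Ideal.Quotient.mkₐ k p (X j.succ) ^ (δ + 1) +
      ∑ l ∈ range s, Ideal.Quotient.mkₐ k p (C (X j)) ^ l *
        aeval (fun j : Fin v => Ideal.Quotient.mkₐ k p (X j.succ)) (fs l) = 0 := fun j => by
    have : Ideal.Quotient.mkₐ k p (G j) = 0 :=
      Ideal.Quotient.eq_zero_iff_mem.2 (hp.1.2 (Ideal.subset_span ⟨j, rfl⟩))
    rw [← this, hG, map_add, map_mul, map_pow, map_sum]
    refine congrArg _ (sum_congr rfl fun l _ => ?_)
    rw [map_mul, map_pow, ← comp_aeval, AlgHom.comp_apply]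
  have e0 : Ideal.Quotient.mkₐ k p (X 0) ≠ 0 := by
    intro z
    have pt := gen_pt hI (fun j => Ideal.Quotient.mkₐ k p (X j.succ))
      (fun j => Ideal.Quotient.mkₐ k p (C (X j))) φ (fun j => by rw [hφ, v1])
      (fun j => by rw [hφ, v2]) fun j => by simpa only [z, zero_mul, zero_add] using rel j
    have e : ((Ideal.Quotient.mk p).comp C).comp (eval c) = Ideal.Quotient.mk p := by
      refine ringHom_ext (fun r => by simp) fun j => ?_
      rw [RingHom.comp_apply, RingHom.comp_apply, ← hev]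
      refine Fin.cases ?_ (fun j => ?_) j
      · rw [v0, map_zero, map_zero]
        exact z.symm
      · rw [v1]
        exact (pt j).symm
    have qp : RingHom.ker (eval c) ≤ p := fun r hr => by
      rw [← Ideal.Quotient.eq_zero_iff_mem, ← e, RingHom.comp_apply, RingHom.mem_ker.1 hr, map_zero]
    have := ((le_height_ker c).trans (Ideal.height_mono qp)).trans ht
    norm_cast at this
    omega
  exact lim H φ (fun j => Ideal.Quotient.mkₐ k p (X j.succ))
    (fun j => Ideal.Quotient.mkₐ k p (C (X j))) _ (by rw [hφ, v1]) (by rw [hφ, v0])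
    (fun j => by rw [hφ, v2]) e0 hΔ rel

end Pool.Agent.MP_cce4c9_lc.H82
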